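import Mathlib
import Pool.Agent.Q60.D3.Sgn

/-!
# The determinant forms of a threefold or of an elliptic curve (job KON, helper225)
-/

set_option linter.unusedSectionVars false
set_option linter.unusedVariables false

namespace Pool.Agent.Q225.D3

open Matrix Pool.Agent.H204R3.CM Pool.Agent.H204R3.SP Pool.Agent.W437.HC Pool.Agent.W437.HD
  Pool.Agent.W437.HP Pool.Agent.W437.HR Pool.Agent.W437.HQ Pool.Agent.Q60.D3

/-- The rational vectors as complex vectors. -/
noncomputable def cq {B : Type} (y : B → ℚ) : B → ℂ := fun i => ((y i : ℚ) : ℂ)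

theorem cq_add {B : Type} (y z : B → ℚ) : cq (y + z) = cq y + cq z := by
  funext i
  simp [cq]

theorem cq_smul {B : Type} (c : ℚ) (y : B → ℚ) : cq (c • y) = (c : ℂ) • cq y := by
  funext i
  simp [cq]

theorem cq_single {B : Type} [DecidableEq B] (i : B) :
    cq (Pi.single i 1 : B → ℚ) = Pi.single i 1 := by
  funext j
  by_cases h : j = i
  · subst h
    simp [cq]
  · simp [cq, h]

/-- Multiplication of one row by a diagonal matrix, summed over the rows. -/
theorem sum_det_diag {n : Type} [Fintype n] [DecidableEq n] (M : Matrix n n ℂ) (e : n → ℂ) :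
    ∑ k, (M.updateRow k fun b => e b * M k b).det = (∑ b, e b) * M.det := by
  simp only [Matrix.det_apply']
  rw [Finset.sum_comm, Finset.mul_sum]
  refine Finset.sum_congr rfl fun σ _ => ?_
  have h1 : ∀ k, ∏ i, (M.updateRow k fun b => e b * M k b) (σ i) i =
      e (σ.symm k) * ∏ i, M (σ i) i := by
    intro k
    have h2 : ∀ i, (M.updateRow k fun b => e b * M k b) (σ i) i =
        (if i = σ.symm k then e i else 1) * M (σ i) i := by
      intro i
      rw [Matrix.updateRow_apply]
      by_cases h : σ i = k
      · have h3 : i = σ.symm k := by rw [← h, Equiv.symm_apply_apply]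
        rw [if_pos h, if_pos h3, h]
      · have h3 : i ≠ σ.symm k := fun h4 => h (by rw [h4, Equiv.apply_symm_apply])
        rw [if_neg h, if_neg h3, one_mul]
    simp only [h2]
    rw [Finset.prod_mul_distrib]
    congr 1
    rw [Finset.prod_ite_eq' Finset.univ (σ.symm k) e, if_pos (Finset.mem_univ _)]
  simp only [h1]
  rw [← Finset.mul_sum, ← Finset.sum_mul]
  have h4 : ∑ k, e (σ.symm k) = ∑ b, e b := Equiv.sum_comp σ.symm e
  rw [h4]
  ring

variable {g : ℕ} {Z : Matrix (Fin g) (Fin g) ℂ}

/-- The matrix of coordinates. -/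
noncomputable def mC (K : KZ Z) (β : Bool) (x : Fin g → Fin g ⊕ Fin g → ℂ) :
    Matrix (Fin g) (Fin g) ℂ := Matrix.of fun a b => K.zc β b (x a)

theorem mC_update (K : KZ Z) (β : Bool) (x : Fin g → Fin g ⊕ Fin g → ℂ) (k : Fin g)
    (y : Fin g ⊕ Fin g → ℂ) :
    mC K β (Function.update x k y) = (mC K β x).updateRow k fun b => K.zc β b y := by
  ext a b
  rw [Matrix.updateRow_apply]
  unfold mC
  rw [Matrix.of_apply, Matrix.of_apply]
  by_cases h : a = k
  · subst h
    rw [Function.update_self, if_pos rfl]
  · rw [Function.update_of_ne h, if_neg h]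

theorem cq_update {B : Type} (x : Fin g → B → ℚ) (k : Fin g) (y : B → ℚ) :
    (fun a => cq (Function.update x k y a)) = Function.update (fun a => cq (x a)) k (cq y) := by
  funext a
  by_cases h : a = k
  · subst h
    rw [Function.update_self, Function.update_self]
  · rw [Function.update_of_ne h, Function.update_of_ne h]

/-- The determinant form on the rational vectors. -/
noncomputable def dQ (K : KZ Z) (β : Bool) : (Fin g ⊕ Fin g → ℚ) [⋀^Fin g]→ₗ[ℚ] ℂ where
  toFun x := (mC K β fun a => cq (x a)).det
  map_update_add' := by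
    intro inst x k y z
    have h : inst = instDecidableEqFin g := Subsingleton.elim _ _
    subst h
    rw [cq_update, cq_update, cq_update, mC_update, mC_update, mC_update, cq_add,
      ← Matrix.det_updateRow_add]
    congr 2
    funext b
    exact map_add _ _ _
  map_update_smul' := by
    intro inst x k c y
    have h : inst = instDecidableEqFin g := Subsingleton.elim _ _
    subst h
    rw [cq_update, cq_update, mC_update, mC_update, cq_smul, Rat.smul_def,
      ← Matrix.det_updateRow_smul]
    congr 2
    funext b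
    rw [map_smul]
    rfl
  map_eq_zero_of_eq' := by
    intro x i j hij hne
    refine Matrix.det_zero_of_row_eq hne ?_
    funext b
    change K.zc β b (cq (x i)) = K.zc β b (cq (x j))
    rw [hij]

theorem dQ_apply (K : KZ Z) (β : Bool) (x : Fin g → Fin g ⊕ Fin g → ℚ) :
    dQ K β x = (mC K β fun a => cq (x a)).det := rfl

/-- The eigenvalue. -/
theorem dQ_eig (K : KZ Z) (β : Bool) (x : Fin g → Fin g ⊕ Fin g → ℚ) (k : Fin g) :
    dQ K β (Function.update x k (K.φ *ᵥ x k)) = K.mus β * dQ K β x := by
  rw [dQ_apply, dQ_apply, cq_update, mC_update]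
  have h1 : (fun b => K.zc β b (cq (K.φ *ᵥ x k))) = K.mus β • (mC K β fun a => cq (x a)) k := by
    funext b
    have h2 : cq (K.φ *ᵥ x k) = cK ℂ K.φ *ᵥ cq (x k) :=
      Pool.Agent.Q60.D3.cast_mulVec K.φ (x k)
    rw [h2, K.zc_phi]
    rfl
  rw [h1, Matrix.det_updateRow_smul, Matrix.updateRow_eq_self]

/-- The signs. -/
noncomputable def eps (β : Bool) (c : Fin g) : ℂ :=
  if ((match β with
      | true => c
      | false => Fin.rev c : Fin g) : ℕ) = 2 then (-1 : ℂ) else 1

theorem zc_D' (K : KZ Z) (hZ : Zᵀ = Z) (β : Bool) (c : Fin g) (y : Fin g ⊕ Fin g → ℂ) :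
    K.zc β c (DZ Z *ᵥ y) = ((KZ.sg β : ℤ) : ℂ) * (eps β c * K.zc β c y) := K.zc_D hZ β c y

/-- The trace of the signs. -/
theorem sum_sign (K : KZ Z) (β : Bool) : ∑ c : Fin g, eps β c = 1 := by
  have h1 : ∑ c : Fin g, (if ((c : Fin g) : ℕ) = 2 then (-1 : ℂ) else 1) = 1 := by
    rcases K.hg with h | h
    · subst h
      simp
    · subst h
      rw [Fin.sum_univ_three]
      norm_num
  cases β
  · exact (KZ.sum_rev fun c : Fin g => if (c : ℕ) = 2 then (-1 : ℂ) else 1).trans h1
  · exact h1

/-- The weight. -/
theorem dQ_act (K : KZ Z) (hZ : Zᵀ = Z) (β : Bool) :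
    act (DZ Z) (fun I : Fin g → Fin g ⊕ Fin g => (dQ K β).toMultilinearMap
      fun k => Pi.single (I k) 1) = ((KZ.sg β : ℤ) : ℂ) •
      (fun I : Fin g → Fin g ⊕ Fin g => (dQ K β).toMultilinearMap fun k => Pi.single (I k) 1) := by
  funext I
  obtain ⟨x, hx⟩ : ∃ x : Fin g → Fin g ⊕ Fin g → ℂ, x = fun a => Pi.single (I a) 1 := ⟨_, rfl⟩
  have h0 : ∀ J : Fin g → Fin g ⊕ Fin g, (dQ K β).toMultilinearMap (fun k => Pi.single (J k) 1) =
      (mC K β fun a => Pi.single (J a) 1).det := by
    intro J
    change (mC K β fun a => cq (Pi.single (J a) 1)).det = _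
    simp only [cq_single]
  have h1 : ∀ k : Fin g, ∑ j, DZ Z j (I k) * (dQ K β).toMultilinearMap
      (fun a => Pi.single (Function.update I k j a) 1) =
      (mC K β (Function.update x k (DZ Z *ᵥ x k))).det := by
    intro k
    have h2 : ∀ j, (fun a => (Pi.single (Function.update I k j a) 1 : Fin g ⊕ Fin g → ℂ)) =
        Function.update x k (Pi.single j 1) := by
      intro j
      funext a
      by_cases h : a = k
      · subst h
        rw [Function.update_self, Function.update_self]
      · rw [Function.update_of_ne h, Function.update_of_ne h, hx]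
    have h3 : ∀ y : Fin g ⊕ Fin g → ℂ, (mC K β (Function.update x k y)).det =
        ∑ b, (mC K β x).updateRow k (fun b => K.zc β b y) k b * (mC K β x).adjugate b k := by
      intro y
      rw [mC_update, Matrix.det_eq_sum_mul_adjugate_row _ k]
      refine Finset.sum_congr rfl fun b _ => ?_
      congr 1
      rw [Matrix.adjugate_apply, Matrix.adjugate_apply]
      congr 1
      ext a c
      by_cases h : a = k
      · subst h
        simp
      · simp [Matrix.updateRow_apply, h]
    have h4 : ∀ y : Fin g ⊕ Fin g → ℂ, (mC K β (Function.update x k y)).det =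
        ∑ b, K.zc β b y * (mC K β x).adjugate b k := by
      intro y
      rw [h3]
      refine Finset.sum_congr rfl fun b _ => ?_
      rw [Matrix.updateRow_self]
    have h5 : DZ Z *ᵥ x k = ∑ j, DZ Z j (I k) • (Pi.single j 1 : Fin g ⊕ Fin g → ℂ) := by
      rw [hx]
      funext i
      rw [Finset.sum_apply, Finset.sum_eq_single i]
      · simp
      · intro b _ hb
        rw [Pi.smul_apply, Pi.single_eq_of_ne (Ne.symm hb), smul_zero]
      · intro h
        exact absurd (Finset.mem_univ _) h
    rw [h4, h5]
    simp only [h0, h2, h4, map_sum, map_smul, smul_eq_mul, Finset.mul_sum, Finset.sum_mul]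
    rw [Finset.sum_comm]
    refine Finset.sum_congr rfl fun b _ => Finset.sum_congr rfl fun j _ => ?_
    ring
  have h6 : ∀ k : Fin g, (mC K β (Function.update x k (DZ Z *ᵥ x k))).det =
      ((KZ.sg β : ℤ) : ℂ) * ((mC K β x).updateRow k fun b => eps β b * mC K β x k b).det := by
    intro k
    rw [mC_update, ← Matrix.det_updateRow_smul]
    congr 2
    funext b
    rw [zc_D' K hZ]
    rfl
  change ∑ k, ∑ j, DZ Z j (I k) * (dQ K β).toMultilinearMap
      (fun a => Pi.single (Function.update I k j a) 1) = _
  simp only [h1, h6]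
  rw [← Finset.mul_sum, sum_det_diag, sum_sign K, one_mul, Pi.smul_apply, h0, smul_eq_mul, hx]

theorem kon (h : S_wgt) : S_kon := by
  intro g Z hZ hpos K β
  refine ⟨{ hn := K.hg
            dimA := ?_
            φ := Matrix.mulVecLin K.φ
            hφ := hom_of_comm hZ hpos hZ hpos K.com
            d := K.d
            hd := K.hd
            sq := ?_
            δ := dQ K β
            μ := K.mus β
            hμ := K.mus_sq β
            eig := fun v k => dQ_eig K β v k
            s := KZ.sg β
            hs := ?_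
            wt := h g Z hpos (Fin g) _ _ (dQ_act K hZ β) }, rfl, rfl, rfl, fun x => rfl⟩
  · change Module.finrank ℂ (Fin g → ℂ) = g
    rw [Module.finrank_fintype_fun_eq_card, Fintype.card_fin]
  · have key : ∀ w : Fin g ⊕ Fin g → ℚ, K.φ *ᵥ (K.φ *ᵥ w) = -((K.d : ℚ) • w) := by
      intro w
      rw [mulVec_mulVec, K.sq, neg_mulVec, smul_mulVec, one_mulVec]
    exact key
  · cases β
    · exact Or.inr rfl
    · exact Or.inl rfl

end Pool.Agent.Q225.D3
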