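import Mathlib
import Pool.Agent.Q60.D3.Stm

set_option autoImplicit false

/-!
# Project D3, job WT: weights of the conjugates of a determinant form
-/

namespace Pool.Agent.Q225.D3

open Pool.Agent.H204R3.CM Pool.Agent.Q60.D3 Polynomial

/-- A basis adapted to the endomorphism `φ` with `φ ^ 2 = -d`. -/
theorem kbasis {H : Type} [AddCommGroup H] [Module ℚ H] [FiniteDimensional ℚ H] (n : ℕ)
    (hn : Module.finrank ℚ H = 2 * n) (φ : H →ₗ[ℚ] H) (d : ℕ) (hd : 0 < d)
    (hφ : ∀ w, φ (φ w) = -((d : ℚ) • w)) :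
    ∃ (w : Fin n → H) (b : Module.Basis (Fin 2 × Fin n) ℚ H),
      ∀ i, b (0, i) = w i ∧ b (1, i) = φ (w i) := by
  classical
  obtain ⟨f, hf⟩ : ∃ f : ℚ[X], f = X ^ 2 + C (d : ℚ) := ⟨_, rfl⟩
  have hfm : f.Monic := by rw [hf]; exact monic_X_pow_add_C _ (by norm_num)
  have hfd : f.natDegree = 2 := by rw [hf]; exact natDegree_X_pow_add_C
  have hfi : Irreducible f := by
    rw [Polynomial.Monic.irreducible_iff_roots_eq_zero_of_degree_le_three hfm (by omega) (by omega)]
    rw [Multiset.eq_zero_iff_forall_notMem]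
    intro a ha
    rw [mem_roots hfm.ne_zero, IsRoot.def, hf, eval_add, eval_pow, eval_X, eval_C] at ha
    have : (0 : ℚ) < d := by exact_mod_cast hd
    nlinarith [sq_nonneg a]
  have hfact : Fact (Irreducible f) := ⟨hfi⟩
  have hz : ∀ a ∈ Ideal.span {f}, (aeval φ : ℚ[X] →ₐ[ℚ] Module.End ℚ H).toRingHom a = 0 := by
    intro a ha
    obtain ⟨c, rfl⟩ := Ideal.mem_span_singleton.1 ha
    have : (aeval φ : ℚ[X] →ₐ[ℚ] Module.End ℚ H) f = 0 := by
      rw [hf, map_add, map_pow, aeval_X, aeval_C]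
      ext w
      simp only [LinearMap.add_apply, pow_two, Module.End.mul_apply, LinearMap.zero_apply,
        Module.algebraMap_end_apply]
      rw [hφ, neg_add_cancel]
    change (aeval φ : ℚ[X] →ₐ[ℚ] Module.End ℚ H) (f * c) = 0
    rw [map_mul, this, zero_mul]
  let g : AdjoinRoot f →+* Module.End ℚ H := Ideal.Quotient.lift _ _ hz
  let _ : Module (AdjoinRoot f) H := Module.compHom H g
  have hg : ∀ (x : AdjoinRoot f) (w : H), x • w = g x w := fun x w => rfl
  have hgroot : g (AdjoinRoot.root f) = φ := by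
    have : g (AdjoinRoot.mk f X) = (aeval φ : ℚ[X] →ₐ[ℚ] Module.End ℚ H) X := rfl
    rw [AdjoinRoot.root, this, aeval_X]
  have : IsScalarTower ℚ (AdjoinRoot f) H := by
    refine ⟨fun q x w => ?_⟩
    have hq : g (q • x) = q • g x := by
      obtain ⟨p, rfl⟩ := AdjoinRoot.mk_surjective x
      rw [AdjoinRoot.smul_mk]
      change (aeval φ : ℚ[X] →ₐ[ℚ] Module.End ℚ H) (q • p) = q • (aeval φ : ℚ[X] →ₐ[ℚ] Module.End ℚ H) p
      rw [map_smul]
    rw [hg, hg, hq, LinearMap.smul_apply]
  let c := (AdjoinRoot.powerBasis hfm.ne_zero).basis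
  have hdim : (AdjoinRoot.powerBasis hfm.ne_zero).dim = 2 := by
    rw [AdjoinRoot.powerBasis_dim, hfd]
  have : FiniteDimensional ℚ (AdjoinRoot f) := (AdjoinRoot.powerBasis hfm.ne_zero).finite
  have : FiniteDimensional (AdjoinRoot f) H := Module.Finite.of_restrictScalars_finite ℚ _ _
  have hK : Module.finrank (AdjoinRoot f) H = n := by
    have h1 := Module.finrank_mul_finrank ℚ (AdjoinRoot f) H
    have h2 : Module.finrank ℚ (AdjoinRoot f) = 2 := by
      rw [(AdjoinRoot.powerBasis hfm.ne_zero).finrank, hdim]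
    rw [h2, hn] at h1
    omega
  let b0 := Module.finBasisOfFinrankEq (AdjoinRoot f) H hK
  let c2 : Module.Basis (Fin 2) ℚ (AdjoinRoot f) := c.reindex (finCongr hdim)
  refine ⟨fun i => b0 i, c2.smulTower b0, fun i => ⟨?_, ?_⟩⟩
  · rw [Module.Basis.smulTower_apply]
    have : c2 0 = 1 := by
      simp [c2, c, Module.Basis.reindex_apply, PowerBasis.basis_eq_pow]
    rw [this, one_smul]
  · rw [Module.Basis.smulTower_apply]
    have : c2 1 = AdjoinRoot.root f := by
      simp [c2, c, Module.Basis.reindex_apply, PowerBasis.basis_eq_pow]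
    rw [this, hg, hgroot]


variable {H : Type} [AddCommGroup H] [Module ℚ H]

/-- Moving `φ` out of a set of variables. -/
lemma eig_set {n : ℕ} (φ : H →ₗ[ℚ] H) (δ : H [⋀^Fin n]→ₗ[ℚ] ℂ) (μ : ℂ)
    (eig : ∀ (v : Fin n → H) (k : Fin n), δ (Function.update v k (φ (v k))) = μ * δ v)
    (x : Fin n → H) (S : Finset (Fin n)) :
    δ (fun k => if k ∈ S then φ (x k) else x k) = μ ^ S.card * δ x := by
  classical
  induction S using Finset.induction_on with
  | empty => simp
  | insert a S ha ih =>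
    have h1 := eig (fun k => if k ∈ S then φ (x k) else x k) a
    have e : (Function.update (fun k => if k ∈ S then φ (x k) else x k) a
        (φ ((fun k => if k ∈ S then φ (x k) else x k) a))) =
        fun k => if k ∈ insert a S then φ (x k) else x k := by
      funext k
      by_cases hk : k = a
      · subst hk
        simp [ha]
      · rw [Function.update_of_ne hk]
        simp [hk]
    rw [e, ih] at h1
    rw [h1, Finset.card_insert_of_notMem ha, pow_succ]
    ring

/-- A form which vanishes at the adapted basis vanishes. -/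
lemma eig_zero {n : ℕ} (φ : H →ₗ[ℚ] H) (δ : H [⋀^Fin n]→ₗ[ℚ] ℂ) (μ : ℂ)
    (eig : ∀ (v : Fin n → H) (k : Fin n), δ (Function.update v k (φ (v k))) = μ * δ v)
    (w : Fin n → H) (b : Module.Basis (Fin 2 × Fin n) ℚ H)
    (hb : ∀ i, b (0, i) = w i ∧ b (1, i) = φ (w i)) (h0 : δ w = 0) : δ = 0 := by
  classical
  refine Module.Basis.ext_alternating b fun v _ => ?_
  have e : (fun k => b (v k)) = fun k => if k ∈ Finset.univ.filter (fun k => (v k).1 = 1) then
      φ ((fun k => w (v k).2) k) else (fun k => w (v k).2) k := by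
    funext k
    have h2 : (v k).1 = 0 ∨ (v k).1 = 1 := by
      rcases v k with ⟨a, c⟩
      fin_cases a <;> simp
    rcases h2 with h2 | h2
    · have : v k = (0, (v k).2) := by rw [← h2]
      rw [this, (hb _).1]
      simp only [Finset.mem_filter, Finset.mem_univ, true_and]
      rw [if_neg (by rw [h2]; decide)]
    · have : v k = (1, (v k).2) := by rw [← h2]
      rw [this, (hb _).2]
      simp only [Finset.mem_filter, Finset.mem_univ, true_and]
      rw [if_pos h2]
  rw [e, eig_set φ δ μ eig, AlternatingMap.zero_apply]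
  have h3 : δ (fun k => w (v k).2) = 0 := by
    by_cases hinj : Function.Injective fun k => (v k).2
    · let σ : Equiv.Perm (Fin n) := Equiv.ofBijective _ ((Finite.injective_iff_bijective).1 hinj)
      have h4 := δ.map_perm w σ
      have h5 : (w ∘ σ) = fun k => w (v k).2 := rfl
      rw [h5, h0, smul_zero] at h4
      exact h4
    · rw [Function.not_injective_iff] at hinj
      obtain ⟨i, j, hij, hne⟩ := hinj
      exact δ.map_eq_zero_of_eq _ (by simp only [hij]) hne
  rw [h3, mul_zero]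

/-- Two forms with the same eigenvalue are proportional. -/
lemma eig_prop {n : ℕ} (φ : H →ₗ[ℚ] H) (δ δ' : H [⋀^Fin n]→ₗ[ℚ] ℂ) (μ : ℂ)
    (eig : ∀ (v : Fin n → H) (k : Fin n), δ (Function.update v k (φ (v k))) = μ * δ v)
    (eig' : ∀ (v : Fin n → H) (k : Fin n), δ' (Function.update v k (φ (v k))) = μ * δ' v)
    (w : Fin n → H) (b : Module.Basis (Fin 2 × Fin n) ℚ H)
    (hb : ∀ i, b (0, i) = w i ∧ b (1, i) = φ (w i)) (h0 : δ ≠ 0) : ∃ c : ℂ, δ' = c • δ := by
  have h1 : δ w ≠ 0 := fun h => h0 (eig_zero φ δ μ eig w b hb h)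
  refine ⟨δ' w / δ w, ?_⟩
  rw [← sub_eq_zero]
  refine eig_zero φ _ μ (fun v k => ?_) w b hb ?_
  · simp only [AlternatingMap.sub_apply, AlternatingMap.smul_apply, smul_eq_mul, eig, eig']
    ring
  · simp only [AlternatingMap.sub_apply, AlternatingMap.smul_apply, smul_eq_mul]
    rw [div_mul_cancel₀ _ h1, sub_self]

/-- **JOB WT.** -/
theorem wt : S_wt := by
  intro A n K σ
  have hd0 : 0 < K.d := Nat.pos_of_ne_zero (fun h => by have := K.hd; rw [h] at this; exact not_squarefree_zero this)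
  have hdC : (K.d : ℂ) ≠ 0 := by exact_mod_cast hd0.ne'
  have hfin : Module.finrank ℚ A.H = 2 * n := by rw [A.dim, K.dimA]
  obtain ⟨w, b, hb⟩ := kbasis n hfin K.φ K.d hd0 K.sq
  have hmap : ∀ (τ : ℂ ≃+* ℂ) (v : Fin n → A.H), conjF τ K.δ.toMultilinearMap v = τ (K.δ v) :=
    fun τ v => rfl
  by_cases h0 : K.δ = 0
  · refine ⟨0, fun v => ?_, fun z _ u => ?_⟩
    · rw [hmap, h0, AlternatingMap.zero_apply, map_zero, zero_apply]
    · rw [zero_apply, zero_apply, mul_zero]
  obtain ⟨ψ, hψ, hz⟩ := K.wt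
  let τL : (ℂ ≃+* ℂ) → (ℂ →ₗ[ℚ] ℂ) := fun τ => (τ : ℂ →+* ℂ).toRatAlgHom.toLinearMap
  let δσ : A.H [⋀^Fin n]→ₗ[ℚ] ℂ := (τL σ).compAlternatingMap K.δ
  have hδσ : ∀ v, δσ v = σ (K.δ v) := fun v => rfl
  have eigσ : ∀ (v : Fin n → A.H) (k : Fin n),
      δσ (Function.update v k (K.φ (v k))) = σ K.μ * δσ v := by
    intro v k
    rw [hδσ, hδσ, K.eig, map_mul]
  have hσμ : σ K.μ * σ K.μ = K.μ * K.μ := by
    rw [← map_mul, K.hμ, map_neg, map_natCast]
  have hσμ' : σ K.μ = K.μ ∨ σ K.μ = -K.μ := mul_self_eq_mul_self_iff.1 hσμ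
  rcases hσμ' with h | h
  · rw [h] at eigσ
    obtain ⟨c, hc⟩ := eig_prop K.φ K.δ δσ K.μ K.eig eigσ w b hb h0
    have hchi : chi K.μ σ = 1 := by unfold chi; rw [if_pos h]
    rw [hchi, mul_one]
    refine ⟨c • ψ, fun v => ?_, fun z hz1 u => ?_⟩
    · rw [smul_apply, hψ, hmap, ← hδσ, hc]
      rfl
    · rw [smul_apply, smul_apply, hz z hz1, smul_eq_mul, smul_eq_mul]
      ring
  · have hμ0 : K.μ ≠ 0 := by
      intro h'
      have := K.hμ
      rw [h', mul_zero] at this
      exact hdC (by rw [← neg_eq_zero, ← this])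
    have hne : σ K.μ ≠ K.μ := by
      rw [h]
      intro h'
      exact hμ0 (by linear_combination (-1 / 2 : ℂ) * h')
    have hchi : chi K.μ σ = -1 := by unfold chi; rw [if_neg hne]
    -- complex conjugation
    have hcμ : (starRingEnd ℂ) K.μ = -K.μ := by
      have h1 : (starRingEnd ℂ) K.μ * (starRingEnd ℂ) K.μ = K.μ * K.μ := by
        rw [← map_mul, K.hμ, map_neg, Complex.conj_natCast]
      rcases mul_self_eq_mul_self_iff.1 h1 with h2 | h2
      · exfalso
        rw [Complex.conj_eq_iff_real] at h2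
        obtain ⟨r, hr⟩ := h2
        have h3 := K.hμ
        rw [hr] at h3
        have h4 : r * r = -(K.d : ℝ) := by exact_mod_cast h3
        have h5 : (0 : ℝ) < K.d := by exact_mod_cast hd0
        nlinarith [mul_self_nonneg r]
      · exact h2
    let cR : ℂ →ₗ[ℝ] ℂ := Complex.conjAe.toLinearMap
    have hcR : ∀ x, cR x = (starRingEnd ℂ) x := fun x => rfl
    let δc : A.H [⋀^Fin n]→ₗ[ℚ] ℂ := (cR.restrictScalars ℚ).compAlternatingMap K.δ
    have hδc : ∀ v, δc v = (starRingEnd ℂ) (K.δ v) := fun v => rfl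
    have eigc : ∀ (v : Fin n → A.H) (k : Fin n),
        δc (Function.update v k (K.φ (v k))) = σ K.μ * δc v := by
      intro v k
      rw [hδc, hδc, K.eig, map_mul, hcμ, h]
    have hc0 : δc ≠ 0 := by
      intro h'
      apply h0
      ext v
      have := congrArg (fun F => F v) h'
      simp only [hδc, AlternatingMap.zero_apply] at this
      rw [AlternatingMap.zero_apply]
      exact (map_eq_zero _).1 this
    obtain ⟨c, hc⟩ := eig_prop K.φ δc δσ (σ K.μ) eigc eigσ w b hb hc0
    rw [hchi]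
    refine ⟨c • cR.compMultilinearMap ψ, fun v => ?_, fun z hz1 u => ?_⟩
    · rw [smul_apply, LinearMap.compMultilinearMap_apply, hψ, hmap, ← hδσ, hc]
      rfl
    · rw [smul_apply, smul_apply, LinearMap.compMultilinearMap_apply,
        LinearMap.compMultilinearMap_apply, hz z hz1, hcR, hcR, map_mul, smul_eq_mul, smul_eq_mul]
      have hz0 : z ≠ 0 := by
        intro h'
        rw [h', norm_zero] at hz1
        exact zero_ne_one hz1
      have h6 : (starRingEnd ℂ) (z ^ K.s) = z ^ (K.s * -1) := by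
        rw [map_zpow₀, mul_neg_one, zpow_neg, ← inv_zpow]
        congr 1
        rw [Complex.inv_def, Complex.normSq_eq_norm_sq, hz1]
        simp
      rw [h6]
      ring

end Pool.Agent.Q225.D3
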